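import Pool.Agent.helper91.ADV.SpecX
import Pool.Agent.helper91.ADV.WCR

/-! Project adv (MP_069684_lc), row ALC. -/

set_option autoImplicit false

namespace Pool.Agent.ADV

open Finset Pool.Agent.helper38.Neg Pool.Agent.helper55.NT Pool.Agent.LNB

theorem ALC_card (L : Finset ℕ) (d l : ℕ) :
    ((L.map (addRightEmbedding d)).filter fun x => x < l + d).card = (L.filter fun x => x < l).card := by
  rw [Finset.filter_map, Finset.card_map]
  congr 1
  ext x
  simp [addRightEmbedding]

theorem ALC (hALF : ALF_stmt) : ALC_stmt := by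
  intro n s u r A C o hA
  have hcG : HasCost (fun y : Fin (n + n) → Bool => C.val (y ∘ Fin.castAdd n) o) s := by
    obtain ⟨L, hL1, hL2, hL3⟩ := Circuit.toChain C
    exact HasCost.rename (Fin.castAdd n) (f := fun z => C.val z o) ⟨L, hL1, hL2.le, hL3 o⟩
  obtain ⟨L, g1, g2, g3⟩ := hcG
  obtain ⟨C1, hC1⟩ := g1.toCircuit
  obtain ⟨o1, ho1⟩ := hC1 _ g3
  obtain ⟨L', q', h1, h2, h3, h4, h5⟩ := hALF (n + n) L.length r (A.map (addRightEmbedding (n - min u n))) C1 o1
    (by rw [Finset.card_map]; exact hA) [] 0 SL.nil (fun f hf => absurd hf (Set.notMem_empty f))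
  obtain ⟨L2, k1, k2, k3⟩ := LN.TTR n u q' L' h1
  obtain ⟨C2, ⟨S, hS1, hS2⟩, l2⟩ := LN.TSC n u q' L2 k1
  obtain ⟨k, hk⟩ := l2 _ (k3 _ (h5 _ rfl))
  refine ⟨L2.length, ?_, C2, k, ⟨S, by omega, hS2⟩, ?_⟩
  · have e1 : 2 ^ (r + 1) * (2 * (n + n + 2) ^ 3 + 2 * L.length + 10) ≤
        2 ^ (r + 1) * (2 * (2 * n + 2) ^ 3 + 2 * s + 10) := by
      apply Nat.mul_le_mul_left
      have e2 : n + n + 2 = 2 * n + 2 := by omega
      rw [e2]
      omega
    simp only [List.length_nil, zero_add] at h3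
    omega
  · intro z
    rw [hk z]
    have hw := WCR_wt u n z
    have hz : C1.val (LN.io u z) o1 = C.val z o := by
      rw [ho1 (LN.io u z)]
      have e : LN.io u z ∘ Fin.castAdd n = z := by
        funext i
        unfold LN.io
        simp
      rw [e]
    unfold alt altu
    simp only [hw, hz, ALC_card]
    have e1 : (wtu u z + (n - min u n) ∈ A.map (addRightEmbedding (n - min u n))) ↔ wtu u z ∈ A := by
      simp [addRightEmbedding]
    simp only [e1]

end Pool.Agent.ADV
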