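import Pool.Agent.helper91.ADV.SpecX

/-! Project adv (MP_069684_lc), row ALG. -/

set_option autoImplicit false

namespace Pool.Agent.ADV

open Finset Pool.Agent.helper38.Neg Pool.Agent.helper55.NT Pool.Agent.LNB

theorem ALG_card (p : ℕ → Prop) [DecidablePred p] (N : ℕ) :
    ((range (N + 1)).filter p).card = ((range N).filter p).card + if p N then 1 else 0 := by
  rw [range_add_one, filter_insert]
  split_ifs with h
  · rw [card_insert_of_notMem (by simp)]
  · rfl

theorem ALG_key (v : ℕ → Bool) : ∀ N : ℕ, ∀ A D : ℕ,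
    A = ((range (N + 1)).filter fun i => (v i = true ↔ i % 2 = 0)).card →
    D = ((range N).filter fun i => v i = true ∧ v (i + 1) = false).card →
    (N % 2 = 0 → v N = true → N + 1 ≤ 2 * A + 2 * D + 1 ∧ 2 * A ≤ N + 1 + 2 * D + 1) ∧
    (N % 2 = 0 → v N = false → N + 1 ≤ 2 * A + 2 * D + 1 ∧ 2 * A + 1 ≤ N + 1 + 2 * D) ∧
    (N % 2 = 1 → v N = true → N + 1 ≤ 2 * A + 2 * D + 2 ∧ 2 * A ≤ N + 1 + 2 * D) ∧
    (N % 2 = 1 → v N = false → N + 1 ≤ 2 * A + 2 * D ∧ 2 * A ≤ N + 1 + 2 * D) := by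
  intro N
  induction N with
  | zero =>
    intro A D hA hD
    rw [ALG_card] at hA
    simp only [range_zero, filter_empty, card_empty] at hA hD
    cases h : v 0 <;> simp [h] at hA <;> simp <;> omega
  | succ N ih =>
    intro A D hA hD
    obtain ⟨A', hA'⟩ : ∃ A', A' = ((range (N + 1)).filter fun i => (v i = true ↔ i % 2 = 0)).card := ⟨_, rfl⟩
    obtain ⟨D', hD'⟩ : ∃ D', D' = ((range N).filter fun i => v i = true ∧ v (i + 1) = false).card := ⟨_, rfl⟩
    obtain ⟨h1, h2, h3, h4⟩ := ih A' D' hA' hD'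
    rw [ALG_card, ← hA'] at hA
    rw [ALG_card, ← hD'] at hD
    rcases Nat.mod_two_eq_zero_or_one N with hp | hp
    · have hq : (N + 1) % 2 = 1 := by omega
      cases ha : v N <;> cases hb : v (N + 1) <;> simp [ha, hb, hq] at hA hD ⊢ <;>
        simp [ha, hp] at h1 h2 h3 h4 <;> omega
    · have hq : (N + 1) % 2 = 0 := by omega
      cases ha : v N <;> cases hb : v (N + 1) <;> simp [ha, hb, hq] at hA hD ⊢ <;>
        simp [ha, hp] at h1 h2 h3 h4 <;> omega

theorem ALG_comp (v : ℕ → Bool) (N : ℕ) :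
    ((range N).filter fun i => (v i = true ↔ i % 2 = 0)).card +
      ((range N).filter fun i => (v i = true ↔ i % 2 = 1)).card = N := by
  induction N with
  | zero => simp
  | succ N ih =>
    rw [ALG_card, ALG_card]
    rcases Nat.mod_two_eq_zero_or_one N with hp | hp <;> cases ha : v N <;> simp [ha, hp] <;> omega

theorem ALG : ALG_stmt := by
  intro N d v hd
  rcases Nat.eq_zero_or_pos N with rfl | hN
  · simp
  obtain ⟨M, rfl⟩ : ∃ M, N = M + 1 := ⟨N - 1, by omega⟩
  rw [Nat.add_sub_cancel] at hd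
  have h1 := ALG_key v M _ _ rfl rfl
  have h2 := ALG_comp v (M + 1)
  obtain ⟨g1, g2, g3, g4⟩ := h1
  rcases Nat.mod_two_eq_zero_or_one M with hp | hp <;> cases ha : v M
  · have := g2 hp ha
    omega
  · have := g1 hp ha
    omega
  · have := g4 hp ha
    omega
  · have := g3 hp ha
    omega

end Pool.Agent.ADV
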