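import Pool.Agent.helper91.ADV.SpecL
import Pool.Agent.helper93.ADV.SpecU
import Pool.Agent.helper64.NG.Thr

/-!
# Project ADV (MP_069684_lc), block M: monotone languages

`b 2^r` levels with one window for monotone functions (cost `n^O(b)`), and the exact threshold at quasi-polynomial size.
`winu u w B f` (SpecU): `f` on the inputs with `w, ..., w + B - 1` ones among the first `u` bits, `0` below and `1` above.

RULES: row `X`: file `Pool/Agent/<seat>/ADV/X.lean`, `import Pool.Agent.helper91.ADV.SpecM`, namespace `Pool.Agent.ADV`,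
theorem line as in the lock note, auxiliary lemmas prefixed `X_`; other rows only as hypotheses. Everything on main outside the
rows adv:* may be cited (`LN.TTR`, `LN.TSC`, `LN.TFF`, `LN.TSI_rel`, `LN.TUP_r`, ...).
-/

set_option autoImplicit false

namespace Pool.Agent.ADV

open Finset Pool.Agent.helper38.Neg Pool.Agent.helper55.NT Pool.Agent.LNB

/-- MWC (short-medium). As `WCR` (`Pool/Agent/helper79/ADV/WCR.lean`; import it and cite `WCR_wt`): `LN.TFF` gives a monotone `g` on `n + n` inputs with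
`g (io u z) = C.val z o` and a circuit of at most `s + 5n + 5` gates; `LN.TSI_rel` (`Pool/Agent/helper69/LN/TSI.lean`) for `g`,
`k0 = (n - min u n) + w`: the function `k0 ≤ wt x && (k0 + b 2^r ≤ wt x || g x)` is `winu u w (b 2^r) f z` at `x = io u z`; the size as in
`LN.TSI` (`18 b (s+1) (n+2)^(b+2)` on `n` inputs; copy that computation); `LN.TTR`, `LN.TSC`. -/
def MWC_stmt : Prop :=
  ∀ (n s u b r w : ℕ) (C : Circuit n s) (o : Fin (n + s)), MonoIn u (fun x => C.val x o = true) → 1 ≤ b →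
    2 ^ r ≤ 2 * (n + n) + 2 →
    ∃ s' ≤ 18 * b * (s + 5 * n + 6) * (n + n + 2) ^ (b + 2) + n + 1, ∃ (C' : Circuit n s') (o' : Fin (n + s')),
      FewDep u r C' ∧ ∀ z, C'.val z o' = winu u w (b * 2 ^ r) (fun x => C.val x o) z

/-- MAV (short-medium). As `AVG` (`Pool/Agent/helper64/ADV/AVG.lean`). `m = min u n`, `N = m / B + 1` windows, `u_w = winu u (w B) B f` for `w < N`, and
`T_w z = ((w+1) B ≤ wtu u z)` for `w < N - 1`, which is `winu u ((w+1) B) B (fun _ => true)`. For `z` let `w₀ = wtu u z / B ≤ N - 1`. `u_w z = 1`, `T_w z = 1` for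
`w < w₀`; `u_(w₀) z = f z`, `T_(w₀) z = 0`; `u_w z = T_w z = 0` for `w > w₀`. Count the `w < N` with `u_w z = f z` and the `w < N - 1` with `¬ T_w z = f z`: for
`w < w₀` exactly one of the two; for `w₀ < w < N - 1` exactly one; `w₀ < N - 1`: `1 + [f z]` for `w₀` and `[¬ f z]` for `w = N - 1`; `w₀ = N - 1`: `1`. The total is
always `N`. So the `2N - 1` agreements (of the `u_w` and of the negations of the `T_w`) have sum `N`, one is `≥ N/(2N-1) = 1/2 + 1/(4N-2)`,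
`4N - 2 = 4 (m/B) + 2`; `agr` of the negation is `1 - agr` (prove it here or take `ADL_stmt` of SpecL as in the lock note). -/
def MAV_stmt : Prop :=
  ∀ (n u B : ℕ), 1 ≤ B → ∀ (f : Fn n) (D : (Fin n → Bool) → ℝ), IsDist D → ∃ w : ℕ,
    1 / (4 * ((min u n / B : ℕ) : ℝ) + 2) ≤ adv D (fun x => f x = true) (winu u w B f) ∨
    1 / (4 * ((min u n / B : ℕ) : ℝ) + 2) ≤ adv D (fun x => f x = true) (winu u w B fun _ => true)

/-- MUP (short-medium). From MWC, MAV. If `2^r ≤ 2(n+n) + 2`: MAV with `B = b 2^r`; MWC for `f = C.val · o` or for the constant `true` (a circuit with one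
gate; `1 + 5n + 6 ≤ s + 5n + 7`). If not: `min u n + 1 ≤ b 2^r` (as `2^r > 4n`), `LN.TUP_r` gives `r' ≤ r` with `2^r' ≤ 2(n+n) + 2`, `min u n + 1 ≤ b 2^r'`; then both quotients are
`0`; `FewDep u r' C` implies `FewDep u r C`. -/
def MUP_stmt : Prop :=
  ∀ (n s u b r : ℕ) (C : Circuit n s) (o : Fin (n + s)), MonoIn u (fun x => C.val x o = true) → 1 ≤ b →
    ∀ D : (Fin n → Bool) → ℝ, IsDist D →
    ∃ s' ≤ 18 * b * (s + 5 * n + 7) * (n + n + 2) ^ (b + 2) + n + 1, ∃ (C' : Circuit n s') (o' : Fin (n + s')),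
      FewDep u r C' ∧ 1 / (4 * ((min u n / (b * 2 ^ r) : ℕ) : ℝ) + 2) ≤
        adv D (fun x => C.val x o = true) fun x => C'.val x o'

/-- MQU (medium). From MUP. `b = 6 c lg n^c + 1`. With `x = min (u n) n / (b 2^r n)`: `γ n ≤ 1/(4x+2)`: clear for `γ n ≤ 0`; for `x = 0` as `γ n ≤ 1/2`; for `x ≥ 1`
`γ (4x+2) ≤ 6 γ x ≤ 6 γ m / (b 2^r) ≤ 6 c lg^c / b ≤ 1`. The circuit of `A n` has `s ≤ 2^(k lg^k)` gates; the size bound
`18 b (s+5n+7) (2n+2)^(b+2) + n + 1 ≤ 2^(K lg^K)` as in `quasiFew_of` (`Pool/Agent/helper64/NG/Thr.lean`), for example `K = 40 c + k + 80`. `A n x ↔ C.val x o = true`: rewrite `A n`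
(`funext`, `propext`). -/
def MQU_stmt : Prop :=
  ∀ (u r : ℕ → ℕ) (γ : ℕ → ℝ) (c : ℕ), (∀ n, γ n * (min (u n) n : ℕ) ≤ c * (lg n : ℝ) ^ c * 2 ^ r n) →
    (∀ n, γ n ≤ 1 / 2) → ∀ A : Lang, InQuasi A → (∀ n, MonoIn (u n) (A n)) → QuasiAdv (Few u r) γ A

/-- MQT (short-medium). From MQU, GRA. 1 → 2: MQU. 2 → 3: `NG.inQuasi_of_inPPoly`, `LN.monoIn_of_monotone`; `Few u r` implies `Pat u (2^r)`: `LN.TFP` (`FewDep`, `LocPat` of `LN` and
`LNB` have the same bodies). 3 → 1: the language of GRA; `QuasiAdv` gives `k`; `HasAdv (2^(k lg^k))` implies `HasAdv (2^(k lg^(k+1)))` (`lg n ≥ 1`); GRA with `e = k + 1`; one constant `c'` for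
the factor and the exponent (`c' = c + 20 (k+1)`). -/
def MQT_stmt : Prop :=
  ∀ (u r : ℕ → ℕ) (γ : ℕ → ℝ), (∀ n, γ n ≤ 1 / 2) →
    [∃ c : ℕ, ∀ n, γ n * (min (u n) n : ℕ) ≤ c * (lg n : ℝ) ^ c * 2 ^ r n,
      ∀ A : Lang, InQuasi A → (∀ n, MonoIn (u n) (A n)) → QuasiAdv (Few u r) γ A,
      ∀ A : Lang, InPPoly A → (∀ n, Monotone (A n)) → QuasiAdv (Pat u fun n => 2 ^ r n) γ A].TFAE

/-- MPG (short). From GRA with `e = 1`: `p.eval n ≤ 2^(k lg n)` is `eval_le_two_pow` (see `poly_growth_P` in `Pool/Agent/helper64/NG/Thr.lean`). -/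
def MPG_stmt : Prop :=
  ∀ (u K : ℕ → ℕ) (γ : ℕ → ℝ), (∀ A : Lang, InPPoly A → (∀ n, Monotone (A n)) → PolyAdv (Pat u K) γ A) →
    ∃ c : ℕ, ∀ n, γ n * (min (u n) n : ℕ) ≤ c * (lg n : ℝ) ^ 20 * K n

end Pool.Agent.ADV
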