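import Pool.Agent.helper93.ADV.QTF
import Pool.Agent.helper93.ADV.PAM
import Pool.Agent.helper93.ADV.NRM
import Pool.Agent.helper93.ADV.GRBx
import Pool.Agent.helper48.ADV.SLF
import Pool.Agent.helper98.ADV.WNF
import Pool.Agent.helper91.ADV.WCR
import Pool.Agent.helper64.ADV.AVG
import Pool.Agent.helper29.ADV.UPR
import Pool.Agent.helper53.ADV.BST
import Pool.Agent.helper23.ADV.MJR
import Pool.Agent.helper31.ADV.BPP
import Pool.Agent.helper45.ADV.TFU
import Pool.Agent.helper45.ADV.DRM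
import Pool.Agent.helper90.ADV.ALN
import Pool.Agent.helper27.ADV.MJC
import Pool.Agent.helper91.ADV.SpecM
import Pool.Agent.helper48.ADV.AVL
import Pool.Agent.helper75.ADV.SYD
import Pool.Agent.helper64.ADV.NUD
import Pool.Agent.helper76.ADV.BSD
import Pool.Agent.helper45.ADV.LPB
import Pool.Agent.helper11.ADV.STG
import Pool.Agent.helper11.ADV.CNT
import Pool.Agent.helper11.ADV.SUM
import Pool.Agent.helper72.ADV.FUB
import Pool.Agent.helper39.ADV.DIS
import Pool.Agent.helper8.ADV.BLK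
import Pool.Agent.helper79.ADV.PRM
import Pool.Agent.helper60.ADV.LBT
import Pool.Agent.helper90.ADV.ADL
import Pool.Agent.helper65.ADV.GRA
import Pool.Agent.helper3.ADV.MWC
import Pool.Agent.helper75.ADV.MAV
import Pool.Agent.helper90.ADV.MUP
import Pool.Agent.helper61.ADV.MQU
import Pool.Agent.helper61.ADV.MQT
import Pool.Agent.helper18.ADV.MPG

/-!
# Project ADV (MP_069684_lc): assembly
-/

set_option autoImplicit false

namespace Pool.Agent.ADV

theorem zUPR : UPR_stmt := UPR (WCR (WNF SLF)) AVG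

theorem zBPP : BPP_stmt := BPP BST GRB_x (MJC MJR)

theorem zTFU : TFU_stmt := TFU zUPR zBPP

theorem zQTF : QTF_stmt := QTF zTFU

theorem zPAM : PAM_stmt := PAM (DRM NRM) ALN

theorem zBSD : BSD_stmt := BSD AVL SYD NUD

theorem zSUM : SUM_stmt := SUM STG CNT FUB

theorem zBLK : BLK_stmt := BLK (DIS FUB) zSUM LPB

theorem zLBT (h : LPP_stmt) : LBT_stmt := LBT zBSD h zBLK PRM

theorem zGRA (h : LPP_stmt) : GRA_stmt := GRA (zLBT h) ADL

theorem zMUP : MUP_stmt := MUP MWC (MAV ADL)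

theorem zMQT (h : LPP_stmt) : MQT_stmt := MQT (MQU zMUP) (zGRA h)

theorem zMPG (h : LPP_stmt) : MPG_stmt := MPG (zGRA h)

end Pool.Agent.ADV
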