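import Pool.Agent.helper64.NG.Defs

/-!
# Project ADV (MP_069684_lc): predicting a language with few NOT gates. Definitions
-/

set_option autoImplicit false

namespace Pool.Agent.ADV

open Pool.Agent.helper38.Neg Pool.Agent.helper55.NT Pool.Agent.LNB

/-- `D` is a probability distribution on `{0,1}^n`. -/
def IsDist {n : ℕ} (D : (Fin n → Bool) → ℝ) : Prop := (∀ x, 0 ≤ D x) ∧ ∑ x, D x = 1

open Classical in
/-- The probability that `g` agrees with `f` on an input drawn from `D`. -/
noncomputable def agr {n : ℕ} (D : (Fin n → Bool) → ℝ) (f : (Fin n → Bool) → Prop)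
    (g : (Fin n → Bool) → Bool) : ℝ := ∑ x, if (g x = true ↔ f x) then D x else 0

/-- The advantage of the better one of `g` and its negation as a predictor of `f`. -/
noncomputable def adv {n : ℕ} (D : (Fin n → Bool) → ℝ) (f : (Fin n → Bool) → Prop)
    (g : (Fin n → Bool) → Bool) : ℝ := |agr D f g - 1 / 2|

/-- A property of circuits. -/
abbrev CProp : Type := (n s : ℕ) → Circuit n s → Prop

/-- For every `n` and every distribution on `{0,1}^n` some circuit with at most `S n` gates and the property `P`, or its
negation, predicts `A` with advantage at least `γ n`. -/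
def HasAdv (S : ℕ → ℕ) (P : CProp) (γ : ℕ → ℝ) (A : Lang) : Prop :=
  ∀ (n : ℕ) (D : (Fin n → Bool) → ℝ), IsDist D → ∃ s ≤ S n, ∃ (C : Circuit n s) (o : Fin (n + s)),
    P n s C ∧ γ n ≤ adv D (A n) fun x => C.val x o

/-- Predictors of polynomial size. -/
def PolyAdv (P : CProp) (γ : ℕ → ℝ) (A : Lang) : Prop :=
  ∃ p : Polynomial ℕ, HasAdv (fun n => p.eval n) P γ A

/-- Predictors of quasi-polynomial size. -/
def QuasiAdv (P : CProp) (γ : ℕ → ℝ) (A : Lang) : Prop :=
  ∃ k : ℕ, HasAdv (fun n => 2 ^ (k * lg n ^ k)) P γ A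

/-- All circuits. -/
def Any : CProp := fun _ _ _ => True

/-- At most `r n` NOT gates depend on the first `u n` inputs. -/
def Few (u r : ℕ → ℕ) : CProp := fun n _ C => FewDep (u n) (r n) C

/-- At most `K n` NOT-vectors along every increasing sequence of inputs which agree from bit `u n` on. -/
def Pat (u K : ℕ → ℕ) : CProp := fun n _ C => LocPat (u n) (K n) C

/-- The number of ones among the first `u` inputs. -/
def wtu (u : ℕ) {n : ℕ} (x : Fin n → Bool) : ℕ :=
  (Finset.univ.filter fun i : Fin n => (i : ℕ) < u ∧ x i = true).card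

end Pool.Agent.ADV
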