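import Pool.Agent.helper91.ADV.SpecL

/-!
# adv:LPP
-/

set_option autoImplicit false

namespace Pool.Agent.ADV

open Finset Pool.Agent.helper55.NT Pool.Agent.LNB Pool.Agent.NG Pool.Agent.PB Pool.Agent.PC

lemma LPP_mono (Z : Base) (M : ℕ) {n : ℕ} {x y : Fin n → Bool} (hxy : x ≤ y) (h : LD Z M x) : LD Z M y := by
  obtain ⟨e, r, l, h1, h2, h3, h4, h5⟩ := h
  refine ⟨e, r, l, h1, h2, h3, h4, mono_le (Z.mono _ _ h1) ?_ h5⟩
  intro k
  unfold blk NG.get
  split_ifs with h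
  · exact hxy _
  · exact le_rfl

open Classical in
/-- One term of the language. -/
noncomputable def LPP_term (Z : Base) (M n : ℕ) (q : ℕ × ℕ × ℕ) : BF n :=
  if OkD q.1 q.2.1 ∧ q.1 < sc M ∧ q.2.1 < sc M ∧ (q.2.2 + 1) * nB q.1 q.2.1 ≤ wd M then
    fun x => Z.h q.1 q.2.1 (blk M x q.1 q.2.1 q.2.2)
  else fun _ => false

lemma LPP_term_size (Z : Base) {M n : ℕ} (hM : M ≤ n) (q : ℕ × ℕ × ℕ) :
    Size std (LPP_term Z M n q) (Z.c * (n + 2) ^ 4 + 1) := by
  unfold LPP_term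
  split_ifs with h
  · obtain ⟨h1, h2, h3, h4⟩ := h
    have hreg := region h2 h3
    have e4 : (q.2.2 + 1) * nB q.1 q.2.1 = q.2.2 * nB q.1 q.2.1 + nB q.1 q.2.1 := by ring
    have hs := Z.size _ _ h1
    obtain ⟨l', h5, h6, h7⟩ := qSUB std (nB q.1 q.2.1) n (Z.h q.1 q.2.1) _ []
      (fun k => fun x => blk M x q.1 q.2.1 q.2.2 k) hs Prog.nil (fun k => by
        right
        have hk : (k : ℕ) < nB q.1 q.2.1 := k.2
        have hlt : bs M q.1 q.2.1 + q.2.2 * nB q.1 q.2.1 + (k : ℕ) < n := by omega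
        refine ⟨⟨_, hlt⟩, ?_⟩
        funext x
        unfold blk NG.get
        rw [dif_pos hlt])
    rw [List.append_nil] at h5 h7
    refine ⟨l', h5, h6.trans ?_, h7⟩
    have h8 : nB q.1 q.2.1 ≤ n := by omega
    have h9 : Z.c * (nB q.1 q.2.1 + 2) ^ 4 ≤ Z.c * (n + 2) ^ 4 :=
      Nat.mul_le_mul_left _ (Nat.pow_le_pow_left (by omega) 4)
    omega
  · exact size_mono (size_false n) (by omega)

lemma LPP_iff (Z : Base) (M n : ℕ) (x : Fin n → Bool) :
    ((trip M).map (LPP_term Z M n)).any (fun f => f x) = true ↔ LD Z M x := by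
  classical
  rw [List.any_eq_true]
  constructor
  · rintro ⟨f, hf, hx⟩
    obtain ⟨q, -, rfl⟩ := List.mem_map.1 hf
    unfold LPP_term at hx
    split_ifs at hx with h
    · exact ⟨q.1, q.2.1, q.2.2, h.1, h.2.1, h.2.2.1, h.2.2.2, hx⟩
  · rintro ⟨e, r, l, h1, h2, h3, h4, h5⟩
    refine ⟨LPP_term Z M n (e, r, l), List.mem_map.2 ⟨(e, r, l), ?_, rfl⟩, ?_⟩
    · unfold trip
      rw [List.mem_product, List.mem_product, List.mem_range, List.mem_range, List.mem_range]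
      refine ⟨h2, h3, ?_⟩
      show l < wd M
      have hN := nB_pos e r
      have h6 : (l + 1) * 1 ≤ (l + 1) * nB e r := Nat.mul_le_mul_left _ hN
      omega
    · unfold LPP_term
      rw [if_pos ⟨h1, h2, h3, h4⟩]
      exact h5

/-- The language is in P/Poly. -/
theorem LPP_poly (Z : Base) (u : ℕ → ℕ) : Pool.Agent.helper55.NT.InPPoly (PL Z u) := by
  refine ⟨Polynomial.C (Z.c + 2) * (Polynomial.X + 2) ^ 5 + 1, fun n => ?_⟩
  have hM : min (u n) n ≤ n := min_le_right _ _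
  have h1 := size_any ((trip (min (u n) n)).map (LPP_term Z (min (u n) n) n)) (t := Z.c * (n + 2) ^ 4 + 1) (by
    intro f hf
    obtain ⟨q, -, rfl⟩ := List.mem_map.1 hf
    exact LPP_term_size Z hM q)
  obtain ⟨l, h2, h3, h4⟩ := h1
  obtain ⟨C, hC⟩ := toCircuit h2
  obtain ⟨k, hk⟩ := hC _ h4
  refine ⟨l.length, ?_, C, k, ?_⟩
  · refine h3.trans ?_
    rw [List.length_map, trip_length]
    have h5 := (sc_sq_wd (min (u n) n)).trans hM
    simp only [Polynomial.eval_add, Polynomial.eval_mul, Polynomial.eval_C, Polynomial.eval_pow,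
      Polynomial.eval_X, Polynomial.eval_ofNat, Polynomial.eval_one]
    refine Nat.add_le_add_right ?_ 1
    calc (Z.c * (n + 2) ^ 4 + 1 + 1) * (sc (min (u n) n) * (sc (min (u n) n) * wd (min (u n) n)))
        ≤ (Z.c * (n + 2) ^ 4 + 1 + 1) * n := Nat.mul_le_mul_left _ h5
      _ ≤ ((Z.c + 2) * (n + 2) ^ 4) * (n + 2) := by
          refine Nat.mul_le_mul ?_ (by omega)
          have : 1 ≤ (n + 2) ^ 4 := Nat.one_le_pow _ _ (by omega)
          nlinarith
      _ = (Z.c + 2) * (n + 2) ^ 5 := by ring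
  · intro x
    rw [hk x]
    exact LPP_iff Z _ _ x



theorem LPP : LPP_stmt := fun Z u => ⟨LPP_poly Z u, fun _ _ _ hxy h => LPP_mono Z _ hxy h⟩

end Pool.Agent.ADV
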