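import Pool.Agent.helper91.ADV.Asm
import Pool.Agent.helper91.ADV.LPP
import Pool.Agent.helper59.ADV.PPO

/-!
# Project ADV (MP_069684_lc): the rows without hypotheses
-/

set_option autoImplicit false

namespace Pool.Agent.ADV

theorem zPPO : PPO_stmt := PPO

theorem zLBT' : LBT_stmt := zLBT LPP

theorem zMQT' : MQT_stmt := zMQT LPP

theorem zMPG' : MPG_stmt := zMPG LPP

end Pool.Agent.ADV
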