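import Pool.Agent.helper93.ADV.SpecW

/-!
# Project ADV (MP_069684_lc), block X: the exact constant

`m = min u n`, `K = 2^(r+1) - 1`. Every function with small circuits is predicted on every distribution with advantage
`min (1/2) (K / (2 (m+1)))` by small circuits with at most `r` NOT gates which depend on the first `u` bits, or their negations; for
the parity of all bits this is optimal, for circuits of any size, if `u < n` or `n` is even.

RULES: row `X`: file `Pool/Agent/<seat>/ADV/X.lean`, `import Pool.Agent.helper91.ADV.SpecX`, namespace `Pool.Agent.ADV`,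
theorem line as in the lock note, auxiliary lemmas prefixed `X_`; other rows only as hypotheses. Do NOT import
`helper79/ADV/WCR.lean` or `helper28/LN/TSC.lean` (name clash); `Pool/Agent/helper91/ADV/WCR.lean` and `Pool/Agent/helper69/LN/TSC.lean` may be imported.
-/

set_option autoImplicit false

namespace Pool.Agent.ADV

open Finset Pool.Agent.helper38.Neg Pool.Agent.helper55.NT Pool.Agent.LNB

/-- `f` on the inputs whose number of ones is in `L`; on the other inputs `1` iff an odd number of elements of `L` is smaller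
than the number of ones. -/
def alt (L : Finset ℕ) {n : ℕ} (f : Fn n) : Fn n :=
  fun z => if wt z ∈ L then f z else decide ((L.filter fun l => l < wt z).card % 2 = 1)

/-- The same for the number of ones among the first `u` bits. -/
def altu (u : ℕ) (L : Finset ℕ) {n : ℕ} (f : Fn n) : Fn n :=
  fun z => if wtu u z ∈ L then f z else decide ((L.filter fun l => l < wtu u z).card % 2 = 1)

/-- ALF (medium; generalises WNF, `Pool/Agent/helper98/ADV/WNF.lean`, `L = {k, ..., k + K - 1}`). From SLF. `K = 2m + 1`, `l 0 < ... < l (K-1)` the elements of `L`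
(`Finset.orderEmbOfFin`, extended to `ℕ`), `G i = win (l i) 1 f` for even `i`, `win (l i) 1 (¬ f)` for odd `i`. `G i x = 0` if `wt x < l i`, `1` if `wt x > l i`; so
`G (i+1) x = 1` implies `G i x = 1`. CLAIM: `alt L f x = G (2m) x || ⋁_(i < m) (G (2i) x && !(G (2i+1) x))`. Let `j` be the number of elements of `L` below `wt x`:
`G i x = 1` for `i < j`. If `wt x ∉ L`: `G i x = 0` for `i ≥ j`, the right side is `1` iff `j = 2i + 1` for some `i ≤ m`, i.e. iff `j` is odd. If `wt x ∈ L`: `l j = wt x`,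
`G i x = 0` for `i > j`, `G j x = f x` (`j` even: the right side is `G j x`) or `!(f x)` (`j = 2i + 1`: the right side is `1 && !(!(f x))`). Circuits as in WNF
(`Rel.biUnion` over `i < K`, `inv_rel r` for the negations of `t i = G (2i+1)`, `i < 2^r - 1`; the disjunction by induction on the number of terms: state the
intermediate functions as `fun x => decide (∃ i < a, G (2i) x = true ∧ G (2i+1) x = false)`). Same size bound. -/
def ALF_stmt : Prop :=
  ∀ (n s r : ℕ) (L : Finset ℕ) (C : Circuit n s) (o : Fin (n + s)), L.card = 2 ^ (r + 1) - 1 →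
    Rel ∅ (2 ^ (r + 1) * (2 * (n + 2) ^ 3 + 2 * s + 10)) r {alt L fun x => C.val x o}

/-- ALC (short-medium; as WCR, `Pool/Agent/helper91/ADV/WCR.lean`, cite `WCR_wt`). From ALF. On `n + n` inputs with the levels `L.map (· + (n - min u n))` (`addRightEmbedding`,
the same cardinality; `wt (LN.io u z) = wtu u z + (n - min u n)`: membership and the number of smaller elements are the same); `LN.TTR`, `LN.TSC` of helper69. -/
def ALC_stmt : Prop :=
  ∀ (n s u r : ℕ) (L : Finset ℕ) (C : Circuit n s) (o : Fin (n + s)), L.card = 2 ^ (r + 1) - 1 →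
    ∃ s' ≤ 2 ^ (r + 1) * (2 * (2 * n + 2) ^ 3 + 2 * s + 10) + n + 1, ∃ (C' : Circuit n s') (o' : Fin (n + s')),
      FewDep u r C' ∧ ∀ z, C'.val z o' = altu u L (fun x => C.val x o) z

/-- ALA (short-medium; as AVG, `Pool/Agent/helper64/ADV/AVG.lean`). `N = min u n + 1`. For `w < N` let `L_w = {(w + i) % N : i < K}`, `K` different elements as `K ≤ N`. For `z` let
`l = wtu u z < N`. Exactly `K` of the `w < N` have `l ∈ L_w` (`l ∈ L_w` iff `(l + N - w) % N < K`; `w ↦ (l + N - w) % N` is a bijection of `{0..N-1}`). If `l ∈ L_w`: `altu u L_w f z = f z` and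
`¬ altu u L_w (¬ f) z = f z`. If not: `altu u L_w f z = altu u L_w (¬ f) z`, so exactly one of the two predictors `altu u L_w f`, `¬ altu u L_w (¬ f)` is right at `z`. So
at every `z` exactly `2K + (N - K) = N + K` of the `2N` predictors are right; the sum of the agreements is `N + K`, one is `≥ 1/2 + K/(2N)`; the agreement of a
negation is `1 -` the agreement. -/
def ALA_stmt : Prop :=
  ∀ (n u K : ℕ), 1 ≤ K → K ≤ min u n + 1 → ∀ (f : Fn n) (D : (Fin n → Bool) → ℝ), IsDist D →
    ∃ L : Finset ℕ, L.card = K ∧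
      ((K : ℝ) / (2 * ((min u n : ℕ) + 1)) ≤ adv D (fun x => f x = true) (altu u L f) ∨
        (K : ℝ) / (2 * ((min u n : ℕ) + 1)) ≤ adv D (fun x => f x = true) (altu u L fun x => !(f x)))

/-- The optimal advantage: `min (1/2) (K / (2 (m + 1)))`, `K = 2^(r+1) - 1`, `m = min u n`. -/
noncomputable def optx (u r n : ℕ) : ℝ := min (1 / 2) (((2 : ℝ) ^ (r + 1) - 1) / (2 * ((min u n : ℕ) + 1)))

/-- UPX (short-medium; as UPR, `Pool/Agent/helper29/ADV/UPR.lean`). From ALC, ALA. `m = min u n ≤ n`. If `2^(r+1) - 1 ≤ m + 1`: ALA with `K = 2^(r+1) - 1`, ALC for `f` (size `s`) or `¬ f` (size `s + 1`: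
one more NOT gate); `2^(r+1) ≤ n + 2 ≤ 4n + 4`. Otherwise let `r'` be the least number with `m + 1 ≤ 2^(r'+1) - 1`; `r' ≤ r`, `2^(r'+1) ≤ 4n + 4`; ALC with `r'` and
`L = range (2^(r'+1) - 1)`: `altu u L f = f` (`wtu u z ≤ m`), agreement `1`, `adv = 1/2`; `FewDep u r' C` implies `FewDep u r C`. -/
def UPX_stmt : Prop :=
  ∀ (n s u r : ℕ) (C : Circuit n s) (o : Fin (n + s)) (D : (Fin n → Bool) → ℝ), IsDist D →
    ∃ s' ≤ (4 * n + 4) * (2 * (2 * n + 2) ^ 3 + 2 * s + 12) + n + 1, ∃ (C' : Circuit n s') (o' : Fin (n + s')),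
      FewDep u r C' ∧ optx u r n ≤ adv D (fun x => C.val x o = true) fun x => C'.val x o'

/-- TFX (short; as TFU, `Pool/Agent/helper45/ADV/TFU.lean`, with `optx`). From UPX, BPP. 2 → 3: `optx u r n ≥ 1/(2 (n + 1))` (`2^(r+1) - 1 ≥ 1`, `min u n ≤ n`), `q = 2 X`. -/
def TFX_stmt : Prop :=
  ∀ (u r : ℕ → ℕ) (A : Lang),
    [InPPoly A,
      PolyAdv (Few u r) (fun n => optx (u n) (r n) n) A,
      ∃ q : Polynomial ℕ, PolyAdv Any (fun n => 1 / (((q.eval n : ℕ) : ℝ) + 2)) A].TFAE

/-- QTX (short-medium; see `Pool/Agent/helper93/ADV/QTF.lean`). From TFX. Let W A be the third condition. 1 → 2, 1 → 3: TFX; 3 → 1: as QTF (`dbl A`). 1 → 4: `HC` is in NP/Poly with monotone slices: the theorem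
`HNP` in `Pool/Agent/helper13/LN/HNP.lean`; TFX. 4 → 5: TFX. 5 → 1: TFX gives `InPPoly HC`; `Pool.Agent.HM.all_NPC.1` (`Pool/Agent/helper80/HM/All2.lean`, or import only its
parts for NPC; if an import clashes tell me). 2 → 1: TFX. -/
def QTX_stmt : Prop :=
  ∀ u r : ℕ → ℕ,
    [∀ A, InNPPoly A → InPPoly A,
      ∀ A, InNPPoly A → PolyAdv (Few u r) (fun n => optx (u n) (r n) n) A,
      ∀ A, InNPPoly A → (∀ n, Monotone (A n)) →
        ∃ q : Polynomial ℕ, PolyAdv Any (fun n => 1 / (((q.eval n : ℕ) : ℝ) + 2)) A,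
      PolyAdv (Few u r) (fun n => optx (u n) (r n) n) LN.HC,
      ∃ q : Polynomial ℕ, PolyAdv Any (fun n => 1 / (((q.eval n : ℕ) : ℝ) + 2)) LN.HC].TFAE

/-- ALG (short-medium). `σ i = 1` for even, `-1` for odd `i`; `g i = ±1` for `v i`; the sum `e = ∑_(i<N) σ i g i` is `2 #{i : v i ↔ i even} - N`. Pair `2k, 2k+1`: `e = ∑_(2k+1<N) (g (2k) - g (2k+1)) + [N odd] g (N-1)`, and
`g (2k) - g (2k+1)` is `2` at a descent, `-2` at an ascent, else `0`. `N` even: `e ≤ 2d`, `e ≥ -2 #ascents ≥ -2(d+1)` (ascents `≤` descents `+ 1`). `N` odd: `e ≤ 1 + 2d`; `e ≥ 1 - 2 #ascents ≥ -2d - 1` if the last value is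
`1`; if it is `0` then ascents `≤` descents, `e ≥ -1 - 2d`. (Or by induction on `N` in steps of two.) -/
def ALG_stmt : Prop :=
  ∀ (N d : ℕ) (v : ℕ → Bool),
    ((range (N - 1)).filter fun i => v i = true ∧ v (i + 1) = false).card ≤ d →
    2 * ((range N).filter fun i => (v i = true ↔ i % 2 = 0)).card ≤ N + 2 * d + N % 2 ∧
    2 * ((range N).filter fun i => (v i = true ↔ i % 2 = 1)).card ≤ N + 2 * d + 2 - N % 2

/-- PEX (medium; near PAM, `Pool/Agent/helper93/ADV/PAM.lean`). From DRM, ALG. `N = u + 1`. For `y : Bool`, `i < N` let `x y i` be the input whose first `i` bits are `1`, whose bit number `u` is `y` and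
whose other bits are `0` (`wt = i + y`; these `2N` inputs are different); `D` = uniform on them. `v i = C.val (x y (min i u)) o`: by DRM at most `K - 1` descents (the
inputs agree from bit `u` on). `a_y` = number of the `i < N` with `v i` = parity value: for `y = 0` the condition is `v i ↔ i even`, for `y = 1` `v i ↔ i odd`. ALG, `d = K - 1`:
`2 a_0 ≤ N + 2d + N % 2`, `2 a_1 ≤ N + 2d + 2 - N % 2`, so `a_0 + a_1 ≤ N + 2d + 1 = N + 2K - 1`; the same for the disagreements `N - a_0` (`v i ↔ i odd`), `N - a_1`; so the agreement is in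
`[1/2 - (2K-1)/(2N), 1/2 + (2K-1)/(2N)]`. -/
def PEX_stmt : Prop :=
  ∀ (n u : ℕ), u < n → ∃ D : (Fin n → Bool) → ℝ, IsDist D ∧
    ∀ (s K : ℕ) (C : NG.MCircuit n s) (o : Fin (n + s)), C.LocPat u K →
      adv D (fun z => wt z % 2 = 0) (fun z => C.val z o) ≤ (2 * (K : ℝ) - 1) / (2 * ((u : ℝ) + 1))

end Pool.Agent.ADV
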