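import Pool.Agent.helper91.ADV.Final
import Pool.Agent.helper91.ADV.SpecX
import Pool.Agent.helper91.ADV.ALC
import Pool.Agent.helper91.ADV.ALG
import Pool.Agent.helper54.ADV.ALF
import Pool.Agent.helper79.ADV.ALA
import Pool.Agent.helper76.ADV.UPX
import Pool.Agent.helper71.ADV.TFX
import Pool.Agent.helper20.ADV.PEX
import Pool.Agent.helper22.ADV.QTX

/-!
# Project ADV (MP_069684_lc): the exact constant, without hypotheses
-/

set_option autoImplicit false

namespace Pool.Agent.ADV

open Pool.Agent.helper55.NT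

theorem wtu_of_le {n u : ℕ} (h : n ≤ u) (z : Fin n → Bool) : wtu u z = wt z := by
  unfold wtu wt
  congr 1
  ext i
  have := i.2
  simp only [Finset.mem_filter, Finset.mem_univ, true_and]
  exact ⟨fun h => h.2, fun h' => ⟨by omega, h'⟩⟩

theorem wtu_self {n : ℕ} (z : Fin n → Bool) : wtu n z = wt z := wtu_of_le le_rfl z

theorem zTFX : TFX_stmt := TFX (UPX (ALC (ALF SLF)) ALA) zBPP

theorem zQTX : QTX_stmt := QTX zTFX

theorem zPEX : PEX_stmt := PEX (DRM NRM) ALG

end Pool.Agent.ADV
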