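import Pool.Agent.helper91.ADV.Defs
import Pool.Agent.helper64.NG.Bound

/-!
# Project ADV (MP_069684_lc), lower part: a distribution on which few NOT gates predict badly

THEOREM (row LBT). There is `c` such that for all `u : ℕ → ℕ` some language `A` in P/Poly with monotone slices has, for all
`n`, `t ≥ lg n`, `d ≥ 1` with `c t^20 d ≤ m = min (u n) n`, a distribution `D` on `{0,1}^n` with: for every circuit `C` of `s`
NOT gates and monotone gates of at most `d` wires, with at most `K` NOT-vectors along increasing inputs that agree from bit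
`u n` on, `Pr (C = A) ≤ 1/2 + c t^20 d (K-1) / m + (s+1)/2^t` and `Pr (C ≠ A) ≤ 1/2 + c t^20 d K / m + (s+1)/2^t`.

RULES: row `X`: file `Pool/Agent/<seat>/ADV/X.lean`, `import Pool.Agent.helper91.ADV.SpecL`, namespace `Pool.Agent.ADV`,
theorem line as in the lock note, auxiliary lemmas prefixed `X_`; other rows only as hypotheses. Theorems `qREJ`, `qTRI`,
`qGS3`, `qIN2`, ... of `Pool/Agent/helper64/NG/Base.lean` and everything imported there may be cited.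
-/

set_option autoImplicit false

namespace Pool.Agent.ADV

open Finset Pool.Agent.helper55.NT Pool.Agent.LNB Pool.Agent.NG Pool.Agent.PB Pool.Agent.PC

/-! ### Block A: the base functions with two distributions -/

/-- The probability that `u` accepts an input drawn from `D`. -/
noncomputable def pr {X : Type} [Fintype X] (D : X → ℝ) (u : X → Bool) : ℝ :=
  ∑ x, if u x = true then D x else 0

/-- AVL (medium). THE AVERAGE LEMMA. From `qAPM`, `qMNC`, `qEXM`. Take `l` of `Size`, `E`, `E'` and the closed family `C` of `u` (APM).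
(1) If no member of `C` has at most `t` elements, `u (g a) = 1` only for `a ∈ E`, and `#E / #A ≤ s / 4^t`.
(2) Let `b ≤ t` be the least number of elements of a member of `C`, `B₀` a member with `b` elements. If `b = 0`, `AccT C` holds for all
`nu w` (`B₀ = ∅`), so `u (nu w) = 1` for `w ∉ E'`, the right side is at least `1 - #E'/#Om + s (#P+1)^(2t)/M ≥ 1`.
(3) `b ≥ 1`. `#{a : AccT C (g a)} ≤ ∑_{b ≤ b' ≤ t} ∑_{Z ∈ MnF C ∅ b'} #{a : Z ⊆ g a}` (EXM with `U = ∅`, `Y = B`: `Z ⊆ B`, `Z ∈ MnF C ∅ #Z`; then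
`∅ ∪ Z = Z ∈ C`, so `#Z ≥ b`), and with `#(MnF C ∅ b') ≤ k^b'` (MNC) and `pos` (`PF Z`, `#Z ≤ 2t` by `C.mem`) it is at most
`#A ∑_{b' ≥ b} (k/kap)^b' ≤ 2 #A (k/kap)^b` (`2 k ≤ kap`), and `2 (k/kap)^b ≤ L^(-b)` as `2 k L ≤ kap`, `b ≥ 1`
(`2 (k L / kap)^b ≤ 2 k L / kap ≤ 1`). And `#{w : B₀ ⊆ nu w} / #Om ≥ L^(-b)` by hypothesis; these `w` have `AccT C (nu w)`, so `u (nu w) = 1` unless
`w ∈ E'`. Together: `#{a : u (g a)}/#A ≤ #E/#A + L^(-b) ≤ s/4^t + #{w : u (nu w)}/#Om + #E'/#Om`. -/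
def AVL_stmt : Prop :=
  ∀ (P A Om : Type) [Fintype P] [DecidableEq P] [Fintype A] [Fintype Om] (S : Sys P A Om) (N : ℕ) (ρ : P ≃ Fin N)
    (L : ℕ) (u : BF N) (s : ℕ), 0 < Fintype.card A → 0 < Fintype.card Om → 1 ≤ L → 2 * S.k * L ≤ S.kap →
    (∀ B : Finset P, S.PF B → B.card ≤ 2 * S.t → Fintype.card Om ≤ ct (fun w => B ⊆ S.nu w) * L ^ B.card) →
    Size (upTo monG S.m) u s →
    (ct (fun a => u (inp ρ (S.g a)) = true) : ℝ) / Fintype.card A ≤
      (ct (fun w => u (inp ρ (S.nu w)) = true) : ℝ) / Fintype.card Om +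
        s * (1 / 4 ^ S.t + ((Fintype.card P : ℝ) + 1) ^ (2 * S.t) / S.M)

/-- SYD (short-medium). Copy the proof of `SYK` (`Pool/Agent/helper40/PC/SYK.lean`, hypotheses `qPCR`, `qIN2`, `qSMM`, `qGRM`, `qHTM`): the system
has `k = 4 * 2^e * 2^(4e)` and `kap = q^r`; the last property: IN2 with `B' = B` and HTM with `lam = (2^(4e))^#B` (as in the last goal
of `SYK`, without the last step). -/
def SYD_stmt : Prop :=
  ∀ (K : Type) [Field K] [Fintype K] [DecidableEq K] (e r D : ℕ) (S : Finset K), 6 ≤ e → 1 ≤ r →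
    Fintype.card K = 2 ^ (6 * e) → S.card = 2 ^ (2 * e) →
    ∃ Y : Sys (Pt K r) (Fin r → Fin (2 * 2 ^ e + 1) → K) (Fin (2 ^ (2 * e)) → Th K (4 * 2 ^ e) r),
      Y.g = (fun a => grF a) ∧ Y.nu = (fun ω => Ngf D S ω) ∧ Y.t = 2 ^ e ∧ Y.M = 2 ^ (2 ^ (2 * e)) ∧
      Y.k = 4 * 2 ^ e * 2 ^ (4 * e) ∧ Y.kap = (2 ^ (6 * e)) ^ r ∧ Y.m = 2 ^ (6 * e * (r - 1)) ∧
      ∀ B : Finset (Pt K r), Y.PF B → B.card ≤ 2 * Y.t →
        Fintype.card (Fin (2 ^ (2 * e)) → Th K (4 * 2 ^ e) r) ≤ ct (fun w => B ⊆ Y.nu w) * (2 ^ (4 * e)) ^ B.card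

/-- The admissible parameters. -/
def OkD (e r : ℕ) : Prop := 6 ≤ e ∧ 2 ≤ r ∧ 32 * e * r ≤ 2 ^ e

/-- NUD (short). The exponents: `(2^(6e(r+1)) + 1)^(2 * 2^e) ≤ 2^(2^e (12e(r+1) + 2))`, `2^(2e) = 2^e 2^e ≥ 2^e 32er`, and
`32er - 12e(r+1) - 2 = 20er - 12e - 2 ≥ 28e - 2 ≥ 2`, so the second term is at most `2^(-2 * 2^e)`, as the first. -/
def NUD_stmt : Prop :=
  ∀ e r : ℕ, OkD e r →
    (1 / 4 ^ (2 ^ e) + ((2 ^ (6 * e * (r + 1)) : ℝ) + 1) ^ (2 * 2 ^ e) / 2 ^ (2 ^ (2 * e)) : ℝ) ≤ 1 / 2 ^ (2 ^ e)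

/-- Base functions with two distributions, on its ones and on its zeros: small circuits of monotone gates accept
the positive distribution hardly more often than the negative one. -/
structure Base : Type where
  c : ℕ
  h : (e r : ℕ) → BF (nB e r)
  dp : (e r : ℕ) → (Fin (nB e r) → Bool) → ℝ
  dn : (e r : ℕ) → (Fin (nB e r) → Bool) → ℝ
  mono : ∀ e r, OkD e r → Mono (h e r)
  size : ∀ e r, OkD e r → Size std (h e r) (c * (nB e r + 2) ^ 4)
  zero : ∀ e r, OkD e r → h e r (fun _ => false) = false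
  dpd : ∀ e r, OkD e r → IsDist (dp e r)
  dnd : ∀ e r, OkD e r → IsDist (dn e r)
  dp1 : ∀ e r, OkD e r → ∀ x, dp e r x ≠ 0 → h e r x = true
  dn0 : ∀ e r, OkD e r → ∀ x, dn e r x ≠ 0 → h e r x = false
  low : ∀ e r, OkD e r → ∀ (u : BF (nB e r)) (s : ℕ), Size (upTo monG (2 ^ (6 * e * (r - 1)))) u s →
    pr (dp e r) u ≤ pr (dn e r) u + s / 2 ^ (2 ^ e)

/-- BSD (medium). From AVL, SYD, NUD, `qREJ`, `qTRI`, `qGS3`. As `BSM` in `Pool/Agent/helper82/PC/BSM.lean` (cite `BSM_h`, `BSM_mono`, `BSM_size`,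
`BSM_num`, `BSM_h_iff`): for each `(e, r)` with `OkD e r` choose `K = GaloisField 2 (6e)`, `S`, `ρ`; `h = BSM_h (2 * 2^e) _ ρ`; `dp` is the law of
`inp ρ (grF a)`, `a` uniform: `dp x = ct (fun a => inp ρ (grF a) = x) / #A`; `dn` the law of `inp ρ (Ngf D S ω)`, `D = 4 2^e + 2 2^e`. `IsDist`: sums
of the numbers of the fibres; `pr dp u = ct (fun a => u (inp ρ (grF a)) = true) / #A` (sum over fibres). `dp1`, `dn0`: the last two goals of
`BSM_low` (graphs accepted; `qREJ`). `zero`: `inp`-free: `V = ∅` would be `AffG`, but `∅ ⊆ Ngf D S ω` for any `ω`, `qREJ`. `low`: AVL with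
`L = 2^(4e)`: `2 k L = 2^(9e+3) ≤ 2^(12e) ≤ (2^(6e))^r`; NUD. For other `(e, r)`: all fields `0`, `false` (do it with choice over a
statement for one pair). -/
def BSD_stmt : Prop := Nonempty Base

/-! ### Block B: the language -/

/-- The property of the first `M` bits. -/
def LD (Z : Base) (M : ℕ) {n : ℕ} (x : Fin n → Bool) : Prop :=
  ∃ e r l, OkD e r ∧ e < sc M ∧ r < sc M ∧ (l + 1) * nB e r ≤ wd M ∧ Z.h e r (blk M x e r l) = true

/-- The language. -/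
def PL (Z : Base) (u : ℕ → ℕ) : Pool.Agent.helper38.Neg.Lang := fun n x => LD Z (min (u n) n) x

/-- LPP (short-medium, mechanical). Copy `LM_mono`, `PA_mono` (`Pool/Agent/helper64/NG/Lang.lean`) and `term` ... `PA_poly`
(`Pool/Agent/helper64/NG/Poly.lean`) with `hB`, `cB`, `Ok` replaced by `Z.h`, `Z.c`, `OkD`. -/
def LPP_stmt : Prop := ∀ (Z : Base) (u : ℕ → ℕ), InPPoly (PL Z u) ∧ ∀ n, Monotone (PL Z u n)

/-- LPB (short-medium, mechanical). Copy `place_block` of `Pool/Agent/helper64/NG/Lang.lean` with `Z.h`, `OkD`, `Z.zero`. -/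
def LPB_stmt : Prop :=
  ∀ (Z : Base) (M n e r L : ℕ), M ≤ n → OkD e r → e < sc M → r < sc M → L * nB e r ≤ wd M →
    ∀ c : ℕ → (Fin (nB e r) → Bool), LD Z M (place M n e r L c) ↔ ∃ l < L, Z.h e r (c l) = true

/-! ### Block C: stages -/

/-- STG (medium). One stage. `build C hF b X hX` (`Pool/Agent/helper64/NG/Star.lean`) gives a list with `#l ≤ s + 2`, in which all
`y ↦ starVal C b (X y) k` and `y ↦ bad C b (X y)` are available; `prog_or` gives `v y = bad C b (X y) || starVal C b (X y) o` with `s + 3` gates;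
`bad C b (X y) = true` iff `notVals (X y) ≠ notVals b` (`eq_of_not_bad`, `star_of_eq`); if it is `false` then `C.val (X y) = starVal C b (X y)`.
So `pr Dp bad ≤ pr Dn bad + ε`, `pr Dp C ≤ pr Dp v ≤ pr Dn v + ε ≤ pr Dn C + pr Dn bad + ε` (`v y = 1`, `bad = 0` implies `C.val (X y) o = 1`).
Second part: if `C.val b o = 1` then `starVal C b (X y) o = 1` for all `y` (`star_self`, `star_mono`), so `1 ≤ pr Dp C + pr Dp bad` and
`pr Dp bad ≤ pr Dn bad + ε`. Otherwise all terms are nonnegative. -/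
def STG_stmt : Prop :=
  ∀ (n s d m N : ℕ) (C : MCircuit n s) (o : Fin (n + s)) (Dp Dn : (Fin N → Bool) → ℝ) (ε : ℝ) (b : Fin n → Bool)
    (X : (Fin N → Bool) → (Fin n → Bool)), C.FanIn d → max d 2 ≤ m → IsDist Dp → IsDist Dn → 0 ≤ ε →
    (∀ v : BF N, Size (upTo monG m) v (s + 3) → pr Dp v ≤ pr Dn v + ε) →
    (∀ i, (∃ c, (fun y => X y i) = fun _ => c) ∨ ∃ j, (fun y => X y i) = fun y => y j) → (∀ y, b ≤ X y) →
    pr Dp (fun y => C.val (X y) o) ≤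
      pr Dn (fun y => C.val (X y) o) + pr Dn (fun y => decide (C.notVals (X y) ≠ C.notVals b)) + ε ∧
    (if C.val b o = true then (1 : ℝ) else 0) ≤
      pr Dp (fun y => C.val (X y) o) + pr Dn (fun y => decide (C.notVals (X y) ≠ C.notVals b)) + ε

/-- CNT (short-medium). Let `I` be the set in question. `i ↦ notVals (z (i+1))` is injective on `I` and avoids `notVals (z 0)`: if
`notVals (z i') = notVals (z (j+1))` for some `i' ≤ j` then `conv` (`Pool/Agent/helper64/NG/Star.lean`) gives the same vector for all inputs between,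
so `j ∉ I` (for `i < j` take `i' = i + 1`; for `z 0` take `i' = 0`). So the range of `notVals (z i)` has at least `#I + 1` elements. -/
def CNT_stmt : Prop :=
  ∀ (n s u K L : ℕ) (C : MCircuit n s), C.LocPat u K → ∀ z : ℕ → (Fin n → Bool), Monotone z →
    (∀ i j, AgreeFrom u (z i) (z j)) →
    ((range L).filter fun i => C.notVals (z (i + 1)) ≠ C.notVals (z i)).card + 1 ≤ K

/-- The product weight. -/
noncomputable def wgt {N L : ℕ} (Dn : (Fin N → Bool) → ℝ) (w : Fin L → Fin N → Bool) : ℝ := ∏ j, Dn (w j)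

/-- The first `i` blocks of `w`, then zeros. -/
def cut {N L : ℕ} (w : Fin L → Fin N → Bool) (i : ℕ) : ℕ → Fin N → Bool :=
  fun j => if h : j < L then (if j < i then w ⟨j, h⟩ else fun _ => false) else fun _ => false

/-- The probability that `g` accepts the negative input of stage `i`. -/
noncomputable def qq {n N L : ℕ} (F : (ℕ → Fin N → Bool) → Fin n → Bool) (Dn : (Fin N → Bool) → ℝ)
    (g : (Fin n → Bool) → Bool) (i : Fin L) : ℝ :=
  ∑ w : Fin L → Fin N → Bool, wgt Dn w * (if g (F (cut w (i + 1))) = true then 1 else 0)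

/-- The probability that `g` accepts the positive input of stage `i`. -/
noncomputable def pp {n N L : ℕ} (F : (ℕ → Fin N → Bool) → Fin n → Bool) (Dp Dn : (Fin N → Bool) → ℝ)
    (g : (Fin n → Bool) → Bool) (i : Fin L) : ℝ :=
  ∑ w : Fin L → Fin N → Bool, wgt Dn w * pr Dp fun a => g (F (cut (Function.update w i a) (i + 1)))

/-- FUB (short-medium). `0 ≤ wgt`; `∑ wgt = 1` (`Finset.prod_univ_sum` or `Fintype.piFinset_univ`); the last one: the map
`(w, y) ↦ (Function.update w i y, w i)` is an involution on pairs and `wgt w * Dn y = wgt (update w i y) * Dn (w i)`, so the right side is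
`∑_(w', y') wgt w' Dn y' φ w' = ∑ wgt w' φ w'` (`Finset.sum_nbij'` or `Equiv.sum_comp` on the product). -/
def FUB_stmt : Prop :=
  ∀ (N L : ℕ) (Dn : (Fin N → Bool) → ℝ), IsDist Dn →
    (∀ w : Fin L → Fin N → Bool, 0 ≤ wgt Dn w) ∧ ∑ w : Fin L → Fin N → Bool, wgt Dn w = 1 ∧
    ∀ (i : Fin L) (φ : (Fin L → Fin N → Bool) → ℝ),
      ∑ w, wgt Dn w * φ w = ∑ w, wgt Dn w * ∑ y, Dn y * φ (Function.update w i y)

/-- DIS (medium). From FUB. `D x = (1/(2L)) ∑_i (∑_w wgt w [F (cut w (i+1)) = x] + ∑_w wgt w ∑_a Dp a [F (cut (update w i a) (i+1)) = x])`. The sum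
is 1; for a function `G` of `x`, `∑_x D x G x = (1/(2L)) ∑_i (∑_w wgt w G (F (cut w (i+1))) + ∑_w wgt w ∑_a Dp a G (F (cut (update w i a) (i+1))))`.
With `G x = [g x ↔ f x]`: on the negative part (`wgt w ≠ 0` means all `Dn (w j) ≠ 0`) `f` is false and `G = 1 - [g]`; on the positive part
`f` is true and `G = [g]`: `agr = (1/(2L)) ∑_i ((1 - qq_i) + pp_i)`. -/
def DIS_stmt : Prop :=
  ∀ (n N L : ℕ) (F : (ℕ → Fin N → Bool) → Fin n → Bool) (Dp Dn : (Fin N → Bool) → ℝ) (f : (Fin n → Bool) → Prop),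
    1 ≤ L → IsDist Dp → IsDist Dn →
    (∀ w : Fin L → Fin N → Bool, (∀ j, Dn (w j) ≠ 0) → ∀ i : Fin L, ¬ f (F (cut w (i + 1)))) →
    (∀ (w : Fin L → Fin N → Bool) (i : Fin L) (a : Fin N → Bool), (∀ j, Dn (w j) ≠ 0) → Dp a ≠ 0 →
      f (F (cut (Function.update w i a) (i + 1)))) →
    ∃ D : (Fin n → Bool) → ℝ, IsDist D ∧ ∀ g : (Fin n → Bool) → Bool,
      agr D f g = 1 / 2 + (1 / (2 * (L : ℝ))) * ∑ i : Fin L, (pp F Dp Dn g i - qq F Dn g i)

/-- SUM (medium). From STG, CNT, FUB. Fix the stage `i` and `w`; STG for `b = F (cut w i)`, `X y = F (cut (update w i y) (i+1))` (its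
coordinates are constant or read `y`; `b ≤ X y`: `F` is monotone by its form, `cut w i` has zeros in the blocks `≥ i`). Multiply by `wgt w`,
sum over `w`; by FUB (`cut (update w i y) i = cut w i`) the sums over `y` with `Dn` disappear:
`pp_i ≤ qq_i + e_i + ε` and `c_i ≤ pp_i + e_i + ε`, where `e_i = ∑_w wgt w [notVals (F (cut w (i+1))) ≠ notVals (F (cut w i))]`,
`c_i = ∑_w wgt w [C.val (F (cut w i)) o]`, `qq_i = c_(i+1)`. `∑_i e_i ≤ K - 1` by CNT for `z i = F (cut w i)` (constant for `i ≥ L`; agreement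
from `u` on as `F` is `false` there), `∑_i (c_(i+1) - c_i) = c_L - c_0 ≤ 1`. Hence `∑ (pp - qq) ≤ K - 1 + L ε` and
`∑ (qq - pp) ≤ ∑ (c_(i+1) - c_i) + ∑ e_i + L ε ≤ K + L ε`. -/
def SUM_stmt : Prop :=
  ∀ (n s d m N L K u : ℕ) (C : MCircuit n s) (o : Fin (n + s)) (Dp Dn : (Fin N → Bool) → ℝ) (ε : ℝ)
    (F : (ℕ → Fin N → Bool) → Fin n → Bool), C.FanIn d → max d 2 ≤ m → IsDist Dp → IsDist Dn → 0 ≤ ε →
    (∀ v : BF N, Size (upTo monG m) v (s + 3) → pr Dp v ≤ pr Dn v + ε) →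
    (∀ i, (∀ c, F c i = false) ∨ ∃ l k, ∀ c, F c i = c l k) → (∀ c (i : Fin n), u ≤ (i : ℕ) → F c i = false) →
    C.LocPat u K →
    ∑ i : Fin L, (pp F Dp Dn (fun x => C.val x o) i - qq F Dn (fun x => C.val x o) i) ≤ ((K : ℝ) - 1) + L * ε ∧
    -((K : ℝ) + L * ε) ≤ ∑ i : Fin L, (pp F Dp Dn (fun x => C.val x o) i - qq F Dn (fun x => C.val x o) i)

/-- BLK (short-medium). From DIS, SUM, LPB. `M = min (u n) n`, `N = nB e r`, `F = place M n e r L`, `Dp = Z.dp e r`, `Dn = Z.dn e r`,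
`f = PL Z u n`. The hypotheses of DIS: LPB, `Z.dn0`, `Z.dp1`, `Z.zero` (`cut w (i+1)` has negative or zero blocks; the updated block `i` is
positive). `place_cases`, `place_agree` for SUM, `Z.low` with `s + 3` gates: `ε = (s+3)/2^(2^e)`. -/
def BLK_stmt : Prop :=
  ∀ (Z : Base) (u : ℕ → ℕ) (n e r L d : ℕ), OkD e r → e < sc (min (u n) n) → r < sc (min (u n) n) →
    L * nB e r ≤ wd (min (u n) n) → 1 ≤ L → max d 2 ≤ 2 ^ (6 * e * (r - 1)) →
    ∃ D : (Fin n → Bool) → ℝ, IsDist D ∧ ∀ (s K : ℕ) (C : MCircuit n s) (o : Fin (n + s)), C.FanIn d →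
      C.LocPat (u n) K →
      agr D (PL Z u n) (fun x => C.val x o) ≤
        1 / 2 + ((K : ℝ) - 1) / (2 * L) + ((s : ℝ) + 3) / 2 ^ (2 ^ e) ∧
      1 / 2 - ((K : ℝ) / (2 * L) + ((s : ℝ) + 3) / 2 ^ (2 ^ e)) ≤ agr D (PL Z u n) (fun x => C.val x o)

/-- PRM (medium, numbers). Compare `params` in `Pool/Agent/helper64/NG/Bound.lean`. `e = Nat.clog 2 t + 11`, so `2^11 t ≤ 2^e ≤ 2^12 t`;
`T = Nat.clog (2^(6e)) (max d 2) ≥ 1`, `r = T + 1`, `(2^(6e))^(T-1) < max d 2 ≤ 2 d`, `nB e r = (2^(6e))^(T-1) 2^(18e) ≤ 2^217 d t^18`; `sc M ≤ 2 lg n ≤ 2 t`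
(`sc_le`); `L = wd M / nB e r`. `L ≥ 1`: `nB e r (sc M)^2 ≤ 2^219 d t^20 ≤ M`. Last: `M < (wd M + 1) (sc M)^2 ≤ 2 wd M (sc M)^2`, `wd M < (L+1) nB ≤ 2 L nB`,
so `M ≤ 4 L nB (sc M)^2 ≤ 2^221 d t^20 L`. `32 e r ≤ 2^e`: `6e(T-1) ≤ log2 (2d) ≤ 2t` (`d ≤ M ≤ n`, `lg n ≤ t`), so `32 e r ≤ 11 t + 64 e ≤ 2^e`
(`e ≥ 11`). `e, r < sc M` as in `params` (`6e(r+1) ≤ log2 M < sc M`). -/
def PRM_stmt : Prop :=
  ∀ M n t d : ℕ, M ≤ n → lg n ≤ t → 1 ≤ d → 2 ^ 224 * t ^ 20 * d ≤ M →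
    ∃ e r L, OkD e r ∧ e < sc M ∧ r < sc M ∧ L * nB e r ≤ wd M ∧ 1 ≤ L ∧ max d 2 ≤ 2 ^ (6 * e * (r - 1)) ∧
      t + 2 ≤ 2 ^ e ∧ M ≤ 2 ^ 224 * t ^ 20 * d * L

/-- LBT (short-medium). From BSD, LPP, BLK, PRM. `c = 2^224`, `A = PL Z u`. `K ≥ 1` (the range of `notVals` is not empty), `1/(2L) ≤ c t^20 d / m`
by the last item of PRM, `(s+3)/2^(2^e) ≤ (s+3)/2^(t+2) ≤ (s+1)/2^t`. -/
def LBT_stmt : Prop :=
  ∃ c : ℕ, ∀ u : ℕ → ℕ, ∃ A : Pool.Agent.helper38.Neg.Lang, InPPoly A ∧ (∀ n, Monotone (A n)) ∧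
    ∀ n t d : ℕ, lg n ≤ t → 1 ≤ d → c * t ^ 20 * d ≤ min (u n) n →
      ∃ D : (Fin n → Bool) → ℝ, IsDist D ∧ ∀ (s K : ℕ) (C : MCircuit n s) (o : Fin (n + s)), C.FanIn d →
        C.LocPat (u n) K →
        agr D (A n) (fun x => C.val x o) ≤
          1 / 2 + c * t ^ 20 * d * ((K : ℝ) - 1) / (min (u n) n : ℕ) + ((s : ℝ) + 1) / 2 ^ t ∧
        1 / 2 - (c * t ^ 20 * d * (K : ℝ) / (min (u n) n : ℕ) + ((s : ℝ) + 1) / 2 ^ t) ≤
          agr D (A n) (fun x => C.val x o)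

/-- ADL (short). `0 ≤ agr ≤ 1` (terms between `0` and `D x`), so `adv ≤ 1/2`; the negation: the two conditions are complementary.
If `adv = 1/2` for a distribution which is positive everywhere then `g` is `f` or the negation of `f`. -/
def ADL_stmt : Prop :=
  ∀ (n : ℕ) (D : (Fin n → Bool) → ℝ) (f : (Fin n → Bool) → Prop) (g : (Fin n → Bool) → Bool), IsDist D →
    0 ≤ agr D f g ∧ agr D f g ≤ 1 ∧ adv D f g ≤ 1 / 2 ∧ agr D f (fun x => !(g x)) = 1 - agr D f g ∧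
    ((∀ x, g x = true ↔ f x) → agr D f g = 1)

/-- GRA (medium). From LBT, ADL. The same `A` for all `K, γ, k, e`. `L₀ = lg n ≥ 1`, `t = (k+3) L₀^e ≥ lg n`, `d = 2`, `m = min (u n) n`.
For every `n`: `K n ≥ 1` (range not empty: HasAdv for the point mass at `0` gives a circuit, `encard_pos`). If `2 c t^20 ≤ m`: `D` of LBT; `HasAdv`
gives `C` with `s ≤ 2^(k L₀^e)` gates; `toM` (`Pool/Agent/helper64/NG/Thr.lean`; import it) gives the `MCircuit` with the same values and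
NOT-vectors; `γ ≤ adv ≤ 2 c t^20 K/m + (s+1)/2^t` and `(s+1)/2^t ≤ 2^(1 - 3 L₀) ≤ 1/(n+2) ≤ 1/m`. Otherwise `γ ≤ 1/2` (ADL), `m ≤ 2 c t^20`.
Result: `c' = (2 c + 1) (k+3)^20` or so; `t^20 = (k+3)^20 L₀^(20e)`. For `m = 0` or `γ n < 0` trivial. -/
def GRA_stmt : Prop :=
  ∀ u : ℕ → ℕ, ∃ A : Pool.Agent.helper38.Neg.Lang, InPPoly A ∧ (∀ n, Monotone (A n)) ∧
    ∀ (K : ℕ → ℕ) (γ : ℕ → ℝ) (k e : ℕ), 1 ≤ e → HasAdv (fun n => 2 ^ (k * lg n ^ e)) (Pat u K) γ A →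
      ∃ c : ℕ, ∀ n, γ n * (min (u n) n : ℕ) ≤ c * (lg n : ℝ) ^ (20 * e) * K n

end Pool.Agent.ADV
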